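import Pool.Agent.Helper74.NM.St

/-! MODULE STP of project NM (MP_26f0da_lc): one gadget in a configuration. -/

set_option autoImplicit false

namespace Pool.Agent.Helper87.NM

open Pool.Agent.Helper74 Pool.Agent.Helper74.NM

section

variable {W : Type} {rk : W → Bool}

theorem cells_cons (X : W) (s : List W) :
    cells rk (X :: s) = .o (.s X) :: .o (.c (rk X)) :: cells rk s := by
  simp [cells]

theorem cells_nil : cells rk ([] : List W) = [] := by
  simp [cells]

theorem cells_ne_x (s : List W) (g : W × List W) (τ : List (Lt W)) :
    cells rk s ≠ .x g :: τ := by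
  cases s with
  | nil => rw [cells_nil]; simp
  | cons X s => rw [cells_cons]; simp

theorem gen (hGA : StGA) (hGB : StGB) (g : W × List W) (hg : Rc rk g) {σ τ : List (Lt W)}
    (hσ : clean σ) (h : Tr (P rk) op (gd rk g) σ τ) :
    τ = σ ∨ BadIn rk τ ∨ ∃ ρ, σ = .o (.b false) :: .o (.s g.1) :: .o (.c (rk g.1)) :: ρ ∧
      (τ = N rk true g.2 ++ ρ ∨ ρ = .x g :: τ) := by
  unfold gd at h
  rw [tr_append] at h
  obtain ⟨ρ, h1, h2⟩ := h
  rcases (hGA W rk g σ).2.2 hσ ρ h1 with hρ | hρ
  · have hc : clean ρ := by rw [hρ]; exact clean_cons_x g σ hσ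
    rcases (hGB W rk g ρ).2.2 hc τ h2 with hτ | hτ
    · right; left
      rw [us_map, hρ] at hτ
      exact ⟨true, cells rk g.2 ++ .x g :: σ, by rw [hτ]; rfl, g.2, g, σ, rfl, hσ, hg⟩
    · left
      rw [hρ] at hτ
      exact (List.cons.inj hτ).2.symm
  · have hc : clean ρ := by
      intro a ha
      apply hσ
      rw [hρ]
      exact List.mem_append_right _ ha
    right; right
    refine ⟨ρ, by rw [hρ]; rfl, ?_⟩
    rcases (hGB W rk g ρ).2.2 hc τ h2 with hτ | hτ
    · left; rw [hτ, us_map]
    · right; exact hτ

end

theorem hSTP (hGA : StGA) (hGB : StGB) : StSTP := by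
  intro W rk g hg
  refine ⟨?_, ?_, ?_⟩
  · intro i s τ h
    rcases gen hGA hGB g hg (clean_N rk i s) h with h1 | h1 | ⟨ρ, h1, h2⟩
    · exact Or.inl h1
    · exact Or.inr (Or.inr h1)
    · right; left
      unfold N at h1
      rw [List.cons.injEq] at h1
      obtain ⟨h3, h1⟩ := h1
      cases s with
      | nil => rw [cells_nil] at h1; simp at h1
      | cons X s' =>
        rw [cells_cons] at h1
        simp only [List.cons.injEq, Lt.o.injEq, Zt.s.injEq, Zt.b.injEq] at h1 h3
        obtain ⟨rfl, -, rfl⟩ := h1
        refine ⟨h3, s', rfl, ?_⟩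
        rcases h2 with h2 | h2
        · rw [h2]
          unfold N
          rw [cells_append]
          rfl
        · exact absurd h2 (cells_ne_x s' g τ)
  · intro σ τ hσ h
    rcases gen hGA hGB g hg (clean_badIn rk σ hσ) h with h1 | h1 | ⟨ρ, h1, h2⟩
    · rw [h1]; exact hσ
    · exact h1
    · obtain ⟨i, σ', rfl, s, g₀, σ₁, rfl, hcl, hlast⟩ := hσ
      rw [List.cons.injEq] at h1
      obtain ⟨h3, h1⟩ := h1
      cases s with
      | nil => rw [cells_nil] at h1; simp at h1
      | cons X s' =>
        rw [cells_cons] at h1
        simp only [List.cons_append, List.cons.injEq, Lt.o.injEq, Zt.s.injEq] at h1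
        obtain ⟨rfl, -, rfl⟩ := h1
        rcases h2 with h2 | h2
        · refine ⟨true, cells rk (g.2 ++ s') ++ .x g₀ :: σ₁, ?_, g.2 ++ s', g₀, σ₁, rfl, hcl, ?_⟩
          · rw [h2]
            unfold N
            rw [cells_append]
            simp
          · intro z hz
            cases s' with
            | nil =>
              exfalso
              have h4 := (hlast g.1 (by simp)).2
              rw [List.append_nil] at hz
              rw [(hg z hz).1] at h4
              exact absurd h4 (by simp)
            | cons Y t =>
              apply hlast z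
              rw [List.getLast?_append] at hz
              simpa using hz
        · exfalso
          cases s' with
          | nil =>
            rw [cells_nil, List.nil_append, List.cons.injEq] at h2
            have h5 : g₀ = g := by simpa using h2.1
            have h4 := hlast g.1 (by simp)
            rw [h5] at h4
            rw [h4.1] at h4
            exact absurd h4.2 (by simp)
          | cons Y t =>
            rw [cells_cons] at h2
            simp at h2
  · intro τ h
    rcases gen hGA hGB g hg clean_nil h with h1 | h1 | ⟨ρ, h1, h2⟩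
    · exact Or.inl h1
    · exact Or.inr h1
    · simp at h1

end Pool.Agent.Helper87.NM
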